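import Pool.Agent.Results.MP_b004e2_gt.LevelGroups
import Pool.Agent.Y446.LG.Base
import Pool.Agent.Y446.LG.Comp

/-!
Level-set-preserving homeomorphism groups: arbitrary clopen subsets of arbitrary manifolds, and the
manifolds which are second members of negative pairs.
-/

namespace Pool.Agent.Results.MP_b004e2_gt.AllManifolds

open Set Topology BoundedContinuousFunction
open Pool.Agent.Results.MP_b004e2_gt.LevelGroups
open Pool.Agent.Y446.LG

/-- A clopen subset and the whole manifold form a negative pair unless they are homeomorphic. -/
theorem negative_clopen {n : ℕ} {N : Type} [TopologicalSpace N] (hN : IsTopManifold n N)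
    (U : Set N) (hU : IsClopen U) (hne : IsEmpty (U ≃ₜ N)) : NegativePair U N := by
  have := hN.t2
  have := hN.secondCountable
  have := hN.locallyCompact
  refine ⟨hne, fun f₀ hf₀ => ?_⟩
  obtain ⟨f, hf, -, φ, -⟩ := clopen_main U hU f₀ hf₀
  exact ⟨f, hf, ⟨φ⟩⟩

/-- The connected component of a point, as a space, is not homeomorphic to a disconnected space. -/
theorem component_homeo {N : Type} [TopologicalSpace N] (hN : ¬ PreconnectedSpace N) (x : N) :
    IsEmpty (connectedComponent x ≃ₜ N) := by
  constructor
  intro e
  apply hN
  have h1 : PreconnectedSpace (connectedComponent x) :=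
    Subtype.preconnectedSpace isPreconnected_connectedComponent
  exact (e.surjective.denseRange).preconnectedSpace e.continuous

/-- no one-point space is the second member of a negative pair with a nonempty first member -/
theorem not_negative_of_subsingleton {n : ℕ} {M N : Type} [TopologicalSpace M]
    [TopologicalSpace N] [Nonempty M] [Nonempty N] [Subsingleton N] (hM : IsTopManifold n M) :
    ¬ NegativePair M N := by
  rintro ⟨hemp, h⟩
  have hM2 : ∃ p q : M, p ≠ q := by
    by_contra hcon
    push Not at hcon
    obtain ⟨p⟩ := (inferInstance : Nonempty M)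
    obtain ⟨y⟩ := (inferInstance : Nonempty N)
    exact hemp.false
      { toFun := fun _ => y
        invFun := fun _ => p
        left_inv := fun q => hcon _ _
        right_inv := fun q => Subsingleton.elim _ _
        continuous_toFun := continuous_const
        continuous_invFun := continuous_const }
  obtain ⟨T, hT⟩ := exists_ne_one hM hM2
  obtain ⟨f, -, ⟨φ⟩⟩ := h (fun _ => 0) continuous_const
  apply hT
  have h1 : (⟨T, fun _ => rfl⟩ : levelGroup (fun _ : M => (0 : ℝ))) = 1 := by
    apply φ.injective
    apply Subtype.ext
    ext p
    exact Subsingleton.elim _ _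
  exact congrArg Subtype.val h1

/-- **Clopen subsets of arbitrary manifolds.** Let `N` be a manifold. For every clopen subset `U` of
`N` and every continuous `f₀` on `U`, the generic extension `f` of `f₀` to `N` has the level group of
`f₀`, extended by the identity; so `(U, N)` is a negative pair unless `U` and `N` are homeomorphic, and
`N ≠ ∅` is the second member of a negative pair with nonempty first member if and only if it is not
a single point. -/
theorem result (n : ℕ) (N : Type) [TopologicalSpace N] (hN : IsTopManifold n N) :
    (∀ U : Set N, IsClopen U → IsTopManifold n U ∧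
      (∀ f₀ : U → ℝ, Continuous f₀ →
        ∀ᶠ g : BoundedContinuousFunction (Uᶜ : Set N) ℝ in
          residual (BoundedContinuousFunction (Uᶜ : Set N) ℝ),
          ∃ f : N → ℝ, Continuous f ∧ (∀ x : U, f x = f₀ x) ∧ (∀ y : (Uᶜ : Set N), f y = g y) ∧
            ∃ φ : levelGroup f₀ ≃* levelGroup f, ∀ T : levelGroup f₀,
              (∀ x : U, (φ T).1 (x : N) = T.1 x) ∧ ∀ y : N, y ∉ U → (φ T).1 y = y) ∧
      (IsEmpty (U ≃ₜ N) → NegativePair U N) ∧
      (Finite (ConnectedComponents N) → U ≠ univ → NegativePair U N)) ∧
    (Nonempty N → ((∃ (m : ℕ) (M : Type) (_ : TopologicalSpace M), Nonempty M ∧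
      IsTopManifold m M ∧ NegativePair M N) ↔ ∃ p q : N, p ≠ q)) := by
  have := hN.t2
  have := hN.secondCountable
  have := hN.locallyCompact
  refine ⟨fun U hU => ⟨manifold_open hN U hU.isOpen, fun f₀ hf₀ => clopen_generic U hU f₀ hf₀,
      negative_clopen hN U hU, fun _ hne => negative_clopen hN U hU (isEmpty_homeo U hU hne)⟩, ?_⟩
  intro _
  constructor
  · rintro ⟨m, M, _, hMn, hM, hneg⟩
    by_contra hcon
    push Not at hcon
    have : Subsingleton N := ⟨hcon⟩
    exact not_negative_of_subsingleton hM hneg
  · rintro ⟨p, q, hpq⟩
    by_cases hc : PreconnectedSpace N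
    · have : ConnectedSpace N := ⟨inferInstance⟩
      rcases n with _ | n
      · exfalso
        have := discrete_of_zero hN
        have h1 : Subsingleton N := PreconnectedSpace.trivial_of_discrete
        exact hpq (Subsingleton.elim p q)
      · exact ⟨0, PUnit.{1}, inferInstance, inferInstance, IsTopManifold.punit,
          (LevelGroups.result.2 n N hN).2⟩
    · have := manifold_locConn hN
      exact ⟨n, connectedComponent p, inferInstance, ⟨⟨p, mem_connectedComponent⟩⟩,
        manifold_open hN _ isOpen_connectedComponent,
        negative_clopen hN _ ⟨isClosed_connectedComponent, isOpen_connectedComponent⟩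
          (component_homeo hc p)⟩

end Pool.Agent.Results.MP_b004e2_gt.AllManifolds
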